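import Pool.Agent.K3h5.PZ.FO
import Pool.Agent.K3h64.PZ.Vol

/-! The converse: configurations of extremal volume have Property Z. -/

set_option autoImplicit false

namespace Pool.Agent.K3h5.PZ

open Pool.Agent.K3h40.Cyc Pool.Agent.K3h64.PZ Finset Matrix MeasureTheory Filter Topology

variable {d : ℕ}

lemma near {p : Fin (d + 3) → EE d} {g : Fin (d + 3) → ℂ} (h : Gale p g)
    (hD : (gram p).det ≠ 0) (hpos : Pos g) (i : Fin (d + 3)) :
    ∀ᶠ q in 𝓝 (p i), ∃ g' : Fin (d + 3) → ℂ, Gale (Function.update p i q) g' ∧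
      (gram (Function.update p i q)).det ≠ 0 ∧ Pos g' := by
  have hev2 := eventually_pos (p := p) hpos i
  have hev3 : ∀ᶠ q in 𝓝 (p i), (gram (Function.update p i q)).det ≠ 0 := by
    have h0 : (gram (Function.update p i (p i))).det ≠ 0 := by
      rw [Function.update_eq_self]; exact hD
    exact (continuous_gram p i).continuousAt.eventually_ne h0
  filter_upwards [hev2, hev3] with q hposq hDq
  set p' := Function.update p i q with hp'
  have hrel : ∀ l, ∑ j, (aug p' j l : ℂ) * gs p g i q j = 0 := fun l => gs_rel h hD i q l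
  obtain ⟨g', hg', D, hDpos, hwdg⟩ := exists_D hDq (gs p g i q) hrel hposq
  refine ⟨g', hg', hDq, ?_⟩
  intro a c hac
  have h1 := hposq a c hac
  unfold ee at h1 ⊢
  rw [wdg_real_mul_left, wdg_real_mul_right, hwdg] at h1
  rw [wdg_real_mul_left, wdg_real_mul_right]
  by_contra hcon
  push Not at hcon
  have : (-1 : ℝ) ^ a.val * ((-1) ^ c.val * (D * wdg (g' a) (g' c)))
      = D * ((-1 : ℝ) ^ a.val * ((-1) ^ c.val * wdg (g' a) (g' c))) := by ring
  rw [this] at h1
  nlinarith

lemma vol_le_of_pos (hd : Even d) (hd0 : 0 < d) {q : Fin (d + 3) → EE d} {g : Fin (d + 3) → ℂ}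
    (hqn : ∀ i, ‖q i‖ = 1) (hg : Gale q g) (hD : (gram q).det ≠ 0) (hpos : Pos g) :
    volume.real (convexHull ℝ (Set.range q)) ≤ volume.real (convexHull ℝ (Set.range (cyc d))) := by
  have hvol := vol_eq hd hd0 hg hD hpos
  have hs := sn_pos (d := d)
  have hcv : 0 < cv d := vol_ev_pos d
  obtain ⟨hS1, -⟩ := SS_le hd (fun i : ZMod (d + 3) => g i) hg.sum
  have hg2' : ∑ j : ZMod (d + 3), ‖g j‖ ^ 2 = 2 := sum_norm_gale hg
  rw [hg2'] at hS1
  have hS1' : 4 * sn d * SS (d := d) g ≤ 2 := hS1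
  have hSS : SS (d := d) g ≤ 1 / (2 * sn d) := by
    rw [le_div_iff₀ (by positivity)]
    linarith
  obtain ⟨hd1, -⟩ := gram_det_le hd0 q hqn
  have hsqrt : Real.sqrt (gram q).det ≤ Real.sqrt (dstar d) := Real.sqrt_le_sqrt hd1
  rw [hvol, vol_cyc hd hd0]
  have h1s : (0 : ℝ) < 1 / (2 * sn d) := by positivity
  calc cv d * Real.sqrt (gram q).det * SS (d := d) g
      ≤ cv d * Real.sqrt (gram q).det * (1 / (2 * sn d)) :=
        mul_le_mul_of_nonneg_left hSS (by positivity)
    _ ≤ cv d * Real.sqrt (dstar d) * (1 / (2 * sn d)) :=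
        mul_le_mul_of_nonneg_right (mul_le_mul_of_nonneg_left hsqrt hcv.le) h1s.le

theorem conv_pz (hd : Even d) (hd0 : 0 < d) (p : Fin (d + 3) → EE d) (hn : ∀ i, ‖p i‖ = 1)
    (hinj : Function.Injective p)
    (hsp : affineSpan ℝ (Set.range p) = ⊤) (hc : IsCyc p)
    (hv : volume.real (convexHull ℝ (Set.range p)) =
      volume.real (convexHull ℝ (Set.range (cyc d)))) (i : Fin (d + 3)) :
    ∀ᶠ q in 𝓝 (p i), ‖q‖ = 1 →
      volume.real (convexHull ℝ ((Set.range p \ {p i}) ∪ {q})) ≤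
        volume.real (convexHull ℝ (Set.range p)) := by
  obtain ⟨σ, hA⟩ := exists_sorted hd hc
  set q : Fin (d + 3) → EE d := fun i => p (σ i) with hq
  have hrange : Set.range q = Set.range p := by
    rw [hq]
    exact σ.surjective.range_comp p
  have hqn : ∀ i, ‖q i‖ = 1 := fun i => hn (σ i)
  have hqinj : Function.Injective q := hinj.comp σ.injective
  have hqsp : affineSpan ℝ (Set.range q) = ⊤ := by rw [hrange, hsp]
  obtain ⟨g, hg, hpos⟩ := exists_pos hd hA
  have hD := gram_ne_of_span hqsp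
  set k : Fin (d + 3) := σ.symm i with hk
  have hqk : q k = p i := by rw [hq, hk]; simp
  have h := near hg hD hpos k
  rw [hqk] at h
  filter_upwards [h] with x hx hx1
  obtain ⟨g', hg', hD', hpos'⟩ := hx
  rw [← hrange, ← hqk, range_update hqinj, hrange, hv]
  refine vol_le_of_pos hd hd0 (fun j => ?_) hg' hD' hpos'
  by_cases hj : j = k
  · subst hj
    rw [Function.update_self, hx1]
  · rw [Function.update_of_ne hj, hqn]

end Pool.Agent.K3h5.PZ
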