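import Pool.Agent.K3h5.PZ.Stm

/-!
Brick CORE of project PZ (MP_7322d1_co, Q2): the algebraic core.
-/

set_option autoImplicit false

namespace Pool.Agent.K3h5.PZ.Core57

open Pool.Agent.K3h5.PZ Finset

theorem core_real {n : ℕ} [NeZero n] (hn : Odd n) (x y lam : ZMod n → ℝ) (T c : ℝ)
    (hT : 0 < T) (hc : 0 < c) (hlam : ∀ j, 0 < lam j)
    (hx : ∀ k, x (k + 2) - x k = T * lam (k + 1) * y (k + 1))
    (hy : ∀ k, y (k + 2) - y k = -(T * lam (k + 1) * x (k + 1)))
    (hxx : ∑ j, lam j * (x j * x j) = 1) (hyy : ∑ j, lam j * (y j * y j) = 1)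
    (hxy : ∑ j, lam j * (x j * y j) = 0)
    (hu : ∀ j, lam j * (c + (x j ^ 2 + y j ^ 2)) = 1)
    (hL : 1 < c * ∑ j, lam j)
    (hW : ∀ a : ZMod n → ℝ,
      T ^ 2 * (∑ j, lam j * a j ^ 2 - (∑ j, lam j * a j) ^ 2 / ∑ j, lam j) ≤
        ∑ k, (a (k + 2) - a k) ^ 2 / lam (k + 1)) :
    ∀ j k, lam j = lam k := by
  classical
  set P : ZMod n → ℝ := fun j => x (j + 1) + x (j - 1) with hP
  set Q : ZMod n → ℝ := fun j => y (j + 1) + y (j - 1) with hQ
  set w : ZMod n → ℝ := fun j => c + (x j ^ 2 + y j ^ 2) with hw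
  set K : ZMod n → ℝ := fun j => y j * P j - x j * Q j with hK
  have hlw : ∀ j, lam j * w j = 1 := hu
  have hx' : ∀ j, x (j + 1) - x (j - 1) = T * lam j * y j := by
    intro j
    have h := hx (j - 1)
    have e1 : j - 1 + 2 = j + 1 := by ring
    have e2 : j - 1 + 1 = j := by ring
    rw [e1, e2] at h
    exact h
  have hy' : ∀ j, y (j + 1) - y (j - 1) = -(T * lam j * x j) := by
    intro j
    have h := hy (j - 1)
    have e1 : j - 1 + 2 = j + 1 := by ring
    have e2 : j - 1 + 1 = j := by ring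
    rw [e1, e2] at h
    exact h
  -- (1)
  have hw1 : ∀ j, w (j + 1) - w (j - 1) = T * lam j * K j := by
    intro j
    have h1 := hx' j
    have h2 := hy' j
    simp only [hw, hK, hP, hQ]
    have e : c + (x (j + 1) ^ 2 + y (j + 1) ^ 2) - (c + (x (j - 1) ^ 2 + y (j - 1) ^ 2)) =
      (x (j + 1) - x (j - 1)) * (x (j + 1) + x (j - 1)) +
      (y (j + 1) - y (j - 1)) * (y (j + 1) + y (j - 1)) := by ring
    rw [e, h1, h2]
    ring
  set A : ZMod n → ℝ := fun j => -(w j * Q j) with hA
  set B : ZMod n → ℝ := fun j => w j * P j with hB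
  -- (2)
  have hAp : ∀ j, A (j + 1) = -(2 * w (j + 1) * y j) + T * x (j + 1) := by
    intro j
    have h := hy j
    have e1 : j + 1 + 1 = j + 2 := by ring
    have e2 : j + 1 - 1 = j := by ring
    have hl := hlw (j + 1)
    simp only [hA, hQ, e1, e2]
    have e3 : y (j + 2) = y j - T * lam (j + 1) * x (j + 1) := by linarith
    rw [e3]
    linear_combination (T * x (j + 1)) * hl
  have hAm : ∀ j, A (j - 1) = -(2 * w (j - 1) * y j) - T * x (j - 1) := by
    intro j
    have h := hy (j - 2)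
    have e1 : j - 1 + 1 = j := by ring
    have e2 : j - 1 - 1 = j - 2 := by ring
    have e3 : j - 2 + 2 = j := by ring
    have e4 : j - 2 + 1 = j - 1 := by ring
    rw [e3, e4] at h
    have hl := hlw (j - 1)
    simp only [hA, hQ, e1, e2]
    have e5 : y (j - 2) = y j + T * lam (j - 1) * x (j - 1) := by linarith
    rw [e5]
    linear_combination (-(T * x (j - 1))) * hl
  have hBp : ∀ j, B (j + 1) = 2 * w (j + 1) * x j + T * y (j + 1) := by
    intro j
    have h := hx j
    have e1 : j + 1 + 1 = j + 2 := by ring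
    have e2 : j + 1 - 1 = j := by ring
    have hl := hlw (j + 1)
    simp only [hB, hP, e1, e2]
    have e3 : x (j + 2) = x j + T * lam (j + 1) * y (j + 1) := by linarith
    rw [e3]
    linear_combination (T * y (j + 1)) * hl
  have hBm : ∀ j, B (j - 1) = 2 * w (j - 1) * x j - T * y (j - 1) := by
    intro j
    have h := hx (j - 2)
    have e1 : j - 1 + 1 = j := by ring
    have e2 : j - 1 - 1 = j - 2 := by ring
    have e3 : j - 2 + 2 = j := by ring
    have e4 : j - 2 + 1 = j - 1 := by ring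
    rw [e3, e4] at h
    have hl := hlw (j - 1)
    simp only [hB, hP, e1, e2]
    have e5 : x (j - 2) = x j - T * lam (j - 1) * y (j - 1) := by linarith
    rw [e5]
    linear_combination (-(T * y (j - 1))) * hl
  have hbA : ∀ j, A (j + 1) - A (j - 1) = -(2 * (T * lam j * K j) * y j) + T * P j := by
    intro j
    rw [hAp, hAm, ← hw1 j]
    simp only [hP]
    ring
  have hbB : ∀ j, B (j + 1) - B (j - 1) = 2 * (T * lam j * K j) * x j + T * Q j := by
    intro j
    rw [hBp, hBm, ← hw1 j]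
    simp only [hQ]
    ring
  -- (3)
  have h3 : ∀ j, (A (j + 1) - A (j - 1)) ^ 2 / lam j + (B (j + 1) - B (j - 1)) ^ 2 / lam j =
      T ^ 2 * (w j * (P j ^ 2 + Q j ^ 2) - 4 * c * (lam j * K j ^ 2)) := by
    intro j
    have hl := hlw j
    have hl0 := (hlam j).ne'
    have hinv : ∀ z : ℝ, z / lam j = z * w j := by
      intro z
      rw [div_eq_iff hl0]
      linear_combination (-z) * hl
    rw [hinv, hinv, hbA, hbB]
    have hKj : K j = y j * P j - x j * Q j := rfl
    have hwj : w j = c + (x j ^ 2 + y j ^ 2) := rfl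
    have hc' : c = w j - (x j ^ 2 + y j ^ 2) := by rw [hwj]; ring
    rw [hc']
    -- expand
    have e1 : ((-(2 * (T * lam j * K j) * y j) + T * P j) ^ 2 * w j +
        (2 * (T * lam j * K j) * x j + T * Q j) ^ 2 * w j) =
        T ^ 2 * (w j * (P j ^ 2 + Q j ^ 2) + 4 * lam j * K j ^ 2 * (x j ^ 2 + y j ^ 2) *
          (lam j * w j) - 4 * K j * (y j * P j - x j * Q j) * (lam j * w j)) := by ring
    rw [e1, hl, ← hKj]
    have e2 : lam j * K j ^ 2 * w j = K j ^ 2 := by
      have : lam j * K j ^ 2 * w j = K j ^ 2 * (lam j * w j) := by ring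
      rw [this, hl, mul_one]
    linear_combination (4 * T ^ 2) * e2
  -- sums of the Wirtinger inequalities
  have hsh : ∀ F : ZMod n → ℝ, ∑ k, F (k + 1) = ∑ k, F k := fun F =>
    Equiv.sum_comp (Equiv.addRight (1 : ZMod n)) F
  have hWA := hW A
  have hWB := hW B
  have hsumAB : (∑ k, (A (k + 2) - A k) ^ 2 / lam (k + 1)) +
      (∑ k, (B (k + 2) - B k) ^ 2 / lam (k + 1)) =
      T ^ 2 * (∑ j, w j * (P j ^ 2 + Q j ^ 2) - 4 * c * ∑ j, lam j * K j ^ 2) := by
    rw [← sum_add_distrib]
    have e : ∀ k : ZMod n, (A (k + 2) - A k) ^ 2 / lam (k + 1) +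
        (B (k + 2) - B k) ^ 2 / lam (k + 1) =
        (fun j => T ^ 2 * (w j * (P j ^ 2 + Q j ^ 2) - 4 * c * (lam j * K j ^ 2))) (k + 1) := by
      intro k
      have h := h3 (k + 1)
      have e1 : k + 1 + 1 = k + 2 := by ring
      have e2 : k + 1 - 1 = k := by ring
      rw [e1, e2] at h
      exact h
    rw [sum_congr rfl fun k _ => e k,
      hsh (fun j => T ^ 2 * (w j * (P j ^ 2 + Q j ^ 2) - 4 * c * (lam j * K j ^ 2)))]
    rw [← mul_sum, sum_sub_distrib, ← mul_sum]
  have hlA : ∀ j, lam j * A j = -Q j := by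
    intro j
    have hl := hlw j
    have e : A j = -(w j * Q j) := rfl
    rw [e]
    linear_combination (-(Q j)) * hl
  have hlB : ∀ j, lam j * B j = P j := by
    intro j
    have hl := hlw j
    have e : B j = w j * P j := rfl
    rw [e]
    linear_combination (P j) * hl
  have hAB2 : (∑ j, lam j * A j ^ 2) + (∑ j, lam j * B j ^ 2) =
      ∑ j, w j * (P j ^ 2 + Q j ^ 2) := by
    rw [← sum_add_distrib]
    refine sum_congr rfl fun j _ => ?_
    have h1 := hlA j
    have h2 := hlB j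
    have e1 : lam j * A j ^ 2 = (lam j * A j) * A j := by ring
    have e2 : lam j * B j ^ 2 = (lam j * B j) * B j := by ring
    rw [e1, e2, h1, h2]
    have e3 : A j = -(w j * Q j) := rfl
    have e4 : B j = w j * P j := rfl
    rw [e3, e4]
    ring
  set L := ∑ j, lam j with hLdef
  have hLpos : 0 < L := by
    rcases lt_trichotomy L 0 with h | h | h
    · nlinarith
    · rw [h] at hL; linarith
    · exact h
  have hsA : ∑ j, lam j * A j = -∑ j, Q j := by
    rw [sum_congr rfl fun j _ => hlA j, sum_neg_distrib]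
  have hsB : ∑ j, lam j * B j = ∑ j, P j := sum_congr rfl fun j _ => hlB j
  have h4 : 4 * c * ∑ j, lam j * K j ^ 2 ≤ ((∑ j, P j) ^ 2 + (∑ j, Q j) ^ 2) / L := by
    rw [hsA] at hWA
    rw [hsB] at hWB
    have hT2 : 0 < T ^ 2 := by positivity
    have h5 : T ^ 2 * (∑ j, w j * (P j ^ 2 + Q j ^ 2) -
        ((∑ j, P j) ^ 2 + (∑ j, Q j) ^ 2) / L) ≤
        T ^ 2 * (∑ j, w j * (P j ^ 2 + Q j ^ 2) - 4 * c * ∑ j, lam j * K j ^ 2) := by
      rw [← hsumAB, ← hAB2]
      have e : ((∑ j, P j) ^ 2 + (∑ j, Q j) ^ 2) / L =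
          (-∑ j, Q j) ^ 2 / L + (∑ j, P j) ^ 2 / L := by ring
      rw [e]
      linarith
    have h6 := le_of_mul_le_mul_left h5 hT2
    linarith
  -- (5)
  have hsh2 : ∀ F : ZMod n → ℝ, ∑ k, F (k - 1) = ∑ k, F k := fun F =>
    (Equiv.subRight (1 : ZMod n)).sum_comp F
  have h5P : ∑ j, P j = 2 * ∑ j, lam j * K j * y j := by
    have h : ∑ j, (A (j + 1) - A (j - 1)) = 0 := by
      rw [sum_sub_distrib, hsh, hsh2, sub_self]
    rw [sum_congr rfl fun j _ => hbA j, sum_add_distrib, ← mul_sum] at h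
    have e : ∑ j, -(2 * (T * lam j * K j) * y j) = -(T * (2 * ∑ j, lam j * K j * y j)) := by
      rw [mul_sum, mul_sum, ← sum_neg_distrib]
      refine sum_congr rfl fun j _ => by ring
    rw [e] at h
    have h' : T * (∑ j, P j) = T * (2 * ∑ j, lam j * K j * y j) := by linarith
    exact mul_left_cancel₀ hT.ne' h'
  have h5Q : ∑ j, Q j = -(2 * ∑ j, lam j * K j * x j) := by
    have h : ∑ j, (B (j + 1) - B (j - 1)) = 0 := by
      rw [sum_sub_distrib, hsh, hsh2, sub_self]
    rw [sum_congr rfl fun j _ => hbB j, sum_add_distrib, ← mul_sum] at h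
    have e : ∑ j, (2 * (T * lam j * K j) * x j) = T * (2 * ∑ j, lam j * K j * x j) := by
      rw [mul_sum, mul_sum]
      refine sum_congr rfl fun j _ => by ring
    rw [e] at h
    have h' : T * (∑ j, Q j) = T * (-(2 * ∑ j, lam j * K j * x j)) := by linarith
    exact mul_left_cancel₀ hT.ne' h'
  -- Bessel
  set α := ∑ j, lam j * K j * x j with hα
  set β := ∑ j, lam j * K j * y j with hβ
  have hBes : α ^ 2 + β ^ 2 ≤ ∑ j, lam j * K j ^ 2 := by
    have h0 : 0 ≤ ∑ j, lam j * (K j - α * x j - β * y j) ^ 2 :=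
      sum_nonneg fun j _ => mul_nonneg (hlam j).le (sq_nonneg _)
    have e : ∑ j, lam j * (K j - α * x j - β * y j) ^ 2 =
        (∑ j, lam j * K j ^ 2) - 2 * α * (∑ j, lam j * K j * x j)
          - 2 * β * (∑ j, lam j * K j * y j) + α ^ 2 * (∑ j, lam j * (x j * x j))
          + β ^ 2 * (∑ j, lam j * (y j * y j)) + 2 * α * β * (∑ j, lam j * (x j * y j)) := by
      simp only [mul_sum, ← sum_sub_distrib, ← sum_add_distrib]
      refine sum_congr rfl fun j _ => by ring
    rw [e, hxx, hyy, hxy, ← hα, ← hβ] at h0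
    nlinarith
  -- (6)
  set Z := ∑ j, lam j * K j ^ 2 with hZ
  have hZ0 : 0 ≤ Z := sum_nonneg fun j _ => mul_nonneg (hlam j).le (sq_nonneg _)
  have hZle : Z ≤ 0 := by
    rw [h5P, h5Q] at h4
    rw [le_div_iff₀ hLpos] at h4
    have h7 : (2 * β) ^ 2 + (-(2 * α)) ^ 2 = 4 * (α ^ 2 + β ^ 2) := by ring
    rw [h7] at h4
    nlinarith
  have hZz : Z = 0 := le_antisymm hZle hZ0
  have hKz : ∀ j, K j = 0 := by
    intro j
    have h := (sum_eq_zero_iff_of_nonneg (s := Finset.univ)
      (f := fun j => lam j * K j ^ 2)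
      (fun j _ => mul_nonneg (hlam j).le (sq_nonneg _))).mp hZz j (mem_univ j)
    rcases mul_eq_zero.mp h with h | h
    · exact absurd h (hlam j).ne'
    · exact pow_eq_zero_iff (two_ne_zero) |>.mp h
  have hstep : ∀ j, w (j + 2) = w j := by
    intro j
    have h := hw1 (j + 1)
    rw [hKz, mul_zero] at h
    have e1 : j + 1 + 1 = j + 2 := by ring
    have e2 : j + 1 - 1 = j := by ring
    rw [e1, e2] at h
    linarith
  have hstepm : ∀ (m : ℕ) (j : ZMod n), w (j + (2 * m : ℕ)) = w j := by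
    intro m
    induction m with
    | zero => intro j; simp
    | succ m ih =>
      intro j
      have e : j + ((2 * (m + 1) : ℕ) : ZMod n) = (j + ((2 * m : ℕ) : ZMod n)) + 2 := by
        push_cast; ring
      rw [e, hstep, ih]
  have hone : ∀ j, w (j + 1) = w j := by
    intro j
    obtain ⟨m, hm⟩ := hn
    have h := hstepm (m + 1) j
    have e : ((2 * (m + 1) : ℕ) : ZMod n) = 1 := by
      have : 2 * (m + 1) = n + 1 := by omega
      rw [this]; simp
    rw [e] at h
    exact h
  have hall : ∀ (m : ℕ), w ((m : ℕ) : ZMod n) = w 0 := by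
    intro m
    induction m with
    | zero => simp
    | succ m ih => rw [Nat.cast_succ, hone, ih]
  have hwc : ∀ j, w j = w 0 := by
    intro j
    have := hall j.val
    rwa [ZMod.natCast_zmod_val] at this
  intro j k
  have h1 := hlw j
  have h2 := hlw k
  rw [hwc j] at h1
  rw [hwc k] at h2
  have hw0 : w 0 ≠ 0 := by
    intro h; rw [h, mul_zero] at h1; exact zero_ne_one h1
  exact mul_right_cancel₀ hw0 (h1.trans h2.symm)

theorem t_CORE : S_CORE := by
  intro d hd hd0 G lam T c hT hc hlam hrec hfr hw hL hW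
  have hodd : Odd (d + 3) := by
    obtain ⟨m, hm⟩ := hd
    exact ⟨m + 1, by omega⟩
  have hG : ∀ k, (G (k + 2)).re - (G k).re = T * lam (k + 1) * (G (k + 1)).im ∧
      (G (k + 2)).im - (G k).im = -(T * lam (k + 1) * (G (k + 1)).re) := by
    intro k
    have h := hrec k
    have h1 := congrArg Complex.re h
    have h2 := congrArg Complex.im h
    simp at h1 h2
    exact ⟨by linarith, by linarith⟩
  refine core_real (n := d + 3) hodd (fun j => (G j).re) (fun j => (G j).im) lam T c hT hc hlam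
    (fun k => (hG k).1) (fun k => (hG k).2) hfr.re_re hfr.im_im hfr.re_im ?_ ?_ hW
  · intro j
    have h := hw j
    rw [← Complex.normSq_eq_norm_sq, Complex.normSq_apply] at h
    rw [← h]
    ring
  · rw [hL]
    have : (0 : ℝ) < (d : ℝ) := by exact_mod_cast hd0
    linarith

end Pool.Agent.K3h5.PZ.Core57
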