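import Pool.Agent.K3h5.PZ.Stm

/-! First order conditions for Property Z. -/

set_option autoImplicit false

namespace Pool.Agent.K3h5.PZ

open Pool.Agent.K3h40.Cyc Finset Matrix MeasureTheory Filter Topology

variable {d : ℕ}

/-- the vector of the linear form `dV p g i` -/
noncomputable def wv (p : Fin (d + 3) → EE d) (g : Fin (d + 3) → ℂ) (i : Fin (d + 3)) : EE d :=
  WithLp.toLp 2 fun k : Fin d => Bm p i k.succ * SS (d := d) g +
    ∑ a : Fin (d + 3), Bm p a k.succ * wdg (g i) (Gf (d := d) g a)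

lemma dV_eq (p : Fin (d + 3) → EE d) (g : Fin (d + 3) → ℂ) (i : Fin (d + 3)) (δ : EE d) :
    dV p g i δ = inner ℝ (wv p g i) δ := by
  rw [inner_eq_sum]
  unfold dV bet wv
  simp only [Finset.sum_mul]
  rw [Finset.sum_comm, ← Finset.sum_add_distrib]
  refine Finset.sum_congr rfl fun k _ => ?_
  show _ = (Bm p i k.succ * SS (d := d) g +
    ∑ a : Fin (d + 3), Bm p a k.succ * wdg (g i) (Gf (d := d) g a)) * δ k
  rw [add_mul, Finset.sum_mul]
  congr 1
  · ring
  · refine Finset.sum_congr rfl fun a _ => ?_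
    ring

/-- a linear form with a local maximum on the sphere at `u` is a multiple of `⟨u, ·⟩` -/
lemma tangent {u w : EE d} (hu : ‖u‖ = 1)
    (h : ∀ᶠ q in 𝓝 u, ‖q‖ = 1 → (inner ℝ w (q - u) : ℝ) ≤ 0) :
    w = (inner ℝ w u : ℝ) • u := by
  set a : ℝ := inner ℝ w u with ha
  set v : EE d := w - a • u with hv
  have huu : (inner ℝ u u : ℝ) = 1 := by rw [real_inner_self_eq_norm_sq, hu]; norm_num
  have huv : (inner ℝ u v : ℝ) = 0 := by
    rw [hv, inner_sub_right, inner_smul_right, huu, real_inner_comm, ← ha]; ring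
  have hwv : (inner ℝ w v : ℝ) = ‖v‖ ^ 2 := by
    have e : w = v + a • u := by rw [hv]; abel
    rw [← real_inner_self_eq_norm_sq]
    conv_lhs => rw [e]
    rw [inner_add_left, inner_smul_left, huv]
    simp
  by_contra hne
  have hvne : v ≠ 0 := by
    intro h0
    exact hne (sub_eq_zero.1 h0)
  have hm : 0 < ‖v‖ ^ 2 := by positivity
  set m : ℝ := ‖v‖ ^ 2 with hmdef
  -- the curve
  have hn : ∀ t : ℝ, ‖u + t • v‖ ^ 2 = 1 + t ^ 2 * m := by
    intro t
    rw [norm_add_sq_real, inner_smul_right, huv, hu, norm_smul, mul_pow, Real.norm_eq_abs, sq_abs]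
    ring
  have hcont : Tendsto (fun t : ℝ => (‖u + t • v‖)⁻¹ • (u + t • v)) (𝓝 0) (𝓝 u) := by
    have h1 : Tendsto (fun t : ℝ => u + t • v) (𝓝 0) (𝓝 (u + (0 : ℝ) • v)) := by
      exact tendsto_const_nhds.add (tendsto_id.smul_const v)
    rw [zero_smul, add_zero] at h1
    have h2 := h1.norm.inv₀ (by rw [hu]; norm_num)
    have h3 := h2.smul h1
    rw [hu, inv_one, one_smul] at h3
    exact h3
  have h1 := hcont.eventually h
  have h2 : ∀ᶠ t : ℝ in 𝓝 0, |a| * |t| < 1 := by
    have : Tendsto (fun t : ℝ => |a| * |t|) (𝓝 0) (𝓝 (|a| * |0|)) :=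
      (tendsto_id.abs).const_mul _
    rw [abs_zero, mul_zero] at this
    exact this.eventually (gt_mem_nhds one_pos)
  have h3 : ∀ᶠ t : ℝ in 𝓝[>] 0, (‖(‖u + t • v‖)⁻¹ • (u + t • v)‖ = 1 →
      (inner ℝ w ((‖u + t • v‖)⁻¹ • (u + t • v) - u) : ℝ) ≤ 0) ∧ |a| * |t| < 1 ∧ 0 < t :=
    (h1.filter_mono nhdsWithin_le_nhds).and ((h2.filter_mono nhdsWithin_le_nhds).and
      self_mem_nhdsWithin)
  obtain ⟨t, k1, k2, k3⟩ := h3.exists
  have hpos : 0 < ‖u + t • v‖ := by
    have : 0 < ‖u + t • v‖ ^ 2 := by rw [hn]; positivity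
    by_contra hcon
    have h0 : ‖u + t • v‖ = 0 := le_antisymm (not_lt.1 hcon) (norm_nonneg _)
    rw [h0] at this
    norm_num at this
  have k4 := k1 (by rw [norm_smul, norm_inv, norm_norm, inv_mul_cancel₀ hpos.ne'])
  rw [inner_sub_right, inner_smul_right, inner_add_right, inner_smul_right, hwv, ← ha] at k4
  -- (a + t m) / N ≤ a
  set N : ℝ := ‖u + t • v‖ with hN
  have k5 : a + t * m ≤ a * N := by
    have : N⁻¹ * (a + t * m) ≤ a := by linarith
    calc a + t * m = N * (N⁻¹ * (a + t * m)) := by field_simp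
      _ ≤ N * a := mul_le_mul_of_nonneg_left this hpos.le
      _ = a * N := by ring
  have hN2 : N ^ 2 = 1 + t ^ 2 * m := hn t
  have hN1 : 1 ≤ N := by
    by_contra hcon
    have : N ^ 2 < 1 := by nlinarith
    nlinarith [mul_pos (pow_pos k3 2) hm]
  have k6 : N - 1 ≤ t ^ 2 * m := by nlinarith
  have k7 : t * m ≤ |a| * (t ^ 2 * m) := by
    calc t * m ≤ a * (N - 1) := by linarith
      _ ≤ |a| * (N - 1) := mul_le_mul_of_nonneg_right (le_abs_self a) (by linarith)
      _ ≤ |a| * (t ^ 2 * m) := mul_le_mul_of_nonneg_left k6 (abs_nonneg a)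
  rw [abs_of_pos k3] at k2
  have k8 : |a| * (t ^ 2 * m) = (|a| * t) * (t * m) := by ring
  rw [k8] at k7
  have : 0 < t * m := mul_pos k3 hm
  nlinarith

/-- strict monotonicity of the volume -/
lemma vol_lt {P Q : Set (EE d)} (hP : Convex ℝ P) (hPc : IsCompact P) (hQc : IsCompact Q)
    (hQP : Q ⊆ P) (hi : (interior P).Nonempty) {x : EE d} (hx : x ∈ P) (hxQ : x ∉ Q) :
    volume.real Q < volume.real P := by
  have hQo : IsOpen Qᶜ := hQc.isClosed.isOpen_compl
  have hcl : x ∈ closure (interior P) := by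
    rw [hP.closure_interior_eq_closure_of_nonempty_interior hi]
    exact subset_closure hx
  obtain ⟨y, hy1, hy2⟩ := mem_closure_iff.1 hcl Qᶜ hQo hxQ
  set O : Set (EE d) := Qᶜ ∩ interior P with hO
  have hOo : IsOpen O := hQo.inter isOpen_interior
  have hOpos : 0 < volume O := hOo.measure_pos volume ⟨y, hy1, hy2⟩
  have hOP : O ⊆ P := fun z hz => interior_subset hz.2
  have hfinP : volume P ≠ ⊤ := hPc.measure_lt_top.ne
  have hfinO : volume O ≠ ⊤ := (measure_mono hOP).trans_lt hPc.measure_lt_top |>.ne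
  have hfinQ : volume Q ≠ ⊤ := hQc.measure_lt_top.ne
  have hdis : Disjoint Q O := by
    rw [Set.disjoint_left]
    intro z hz hz2
    exact hz2.1 hz
  have h1 : volume.real (Q ∪ O) = volume.real Q + volume.real O :=
    measureReal_union hdis hOo.measurableSet hfinQ hfinO
  have h2 : volume.real (Q ∪ O) ≤ volume.real P :=
    measureReal_mono (Set.union_subset hQP hOP) hfinP
  have h3 : 0 < volume.real O := by
    rw [measureReal_def]
    exact ENNReal.toReal_pos hOpos.ne' hfinO
  linarith

lemma inner_lt_one {u v : EE d} (hu : ‖u‖ = 1) (hv : ‖v‖ = 1) (h : u ≠ v) :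
    (inner ℝ u v : ℝ) < 1 := by
  exact (inner_lt_one_iff_real_of_norm_eq_one hu hv).2 h

theorem fo (hVOL : S_VOL) (hd : Even d) (hd0 : 0 < d) {p : Fin (d + 3) → EE d}
    {g : Fin (d + 3) → ℂ} (hn : ∀ i, ‖p i‖ = 1) (hinj : Function.Injective p)
    (hsp : affineSpan ℝ (Set.range p) = ⊤)
    (hg : Gale p g) (hD : (gram p).det ≠ 0) (hpos : Pos g)
    (hZ : ∀ i, ∀ᶠ q in 𝓝 (p i), ‖q‖ = 1 →
      volume.real (convexHull ℝ (Set.range (Function.update p i q))) ≤
        volume.real (convexHull ℝ (Set.range p))) :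
    0 < SS (d := d) g ∧ ∃ lam : Fin (d + 3) → ℝ, (∀ i, 0 < lam i) ∧
      ∀ i δ, dV p g i δ = lam i * inner ℝ (p i) δ := by
  have hvol := vol_eq hd hd0 hg hD hpos
  have hint : (interior (convexHull ℝ (Set.range p))).Nonempty := by
    rw [interior_convexHull_nonempty_iff_affineSpan_eq_top]
    exact hsp
  have hPc : IsCompact (convexHull ℝ (Set.range p)) :=
    (Set.finite_range p).isCompact_convexHull ℝ
  have hvp : 0 < volume.real (convexHull ℝ (Set.range p)) := by
    rw [measureReal_def]
    refine ENNReal.toReal_pos ?_ hPc.measure_lt_top.ne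
    exact (lt_of_lt_of_le (isOpen_interior.measure_pos volume hint)
      (measure_mono interior_subset)).ne'
  set K : ℝ := cv d * Real.sqrt (gram p).det with hK
  have hK0 : 0 ≤ K := by
    have : 0 < cv d := vol_ev_pos d
    positivity
  have hKpos : 0 < K := by
    rcases hK0.lt_or_eq with h | h
    · exact h
    · rw [hvol, ← h, zero_mul] at hvp
      exact absurd hvp (lt_irrefl _)
  have hSS : 0 < SS (d := d) g := by
    rw [hvol] at hvp
    exact (pos_iff_pos_of_mul_pos hvp).1 hKpos
  refine ⟨hSS, ?_⟩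
  have h1 : ∀ i, ∀ᶠ q in 𝓝 (p i), ‖q‖ = 1 → (inner ℝ (wv p g i) (q - p i) : ℝ) ≤ 0 := by
    intro i
    filter_upwards [hZ i, hVOL d hd hd0 p g hg hD hpos i] with q h1 h2 hq
    have h3 := h1 hq
    rw [h2, hvol, ← hK] at h3
    have h4 := le_of_mul_le_mul_left h3 hKpos
    rw [← dV_eq]
    linarith
  have h2 : ∀ i, wv p g i = (inner ℝ (wv p g i) (p i) : ℝ) • p i := fun i => tangent (hn i) (h1 i)
  refine ⟨fun i => inner ℝ (wv p g i) (p i), fun i => ?_, fun i δ => ?_⟩
  · -- positivity
    show (0 : ℝ) < inner ℝ (wv p g i) (p i)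
    set a : ℝ := inner ℝ (wv p g i) (p i) with ha
    obtain ⟨j, hj⟩ : ∃ j : Fin (d + 3), j ≠ i := exists_ne i
    have hip : (inner ℝ (p i) (p j) : ℝ) < 1 := inner_lt_one (hn i) (hn j) (fun h => hj (hinj h).symm)
    have hcont : Tendsto (fun t : ℝ => p i + t • (p j - p i)) (𝓝 0) (𝓝 (p i)) := by
      have h1 : Tendsto (fun t : ℝ => p i + t • (p j - p i)) (𝓝 0)
          (𝓝 (p i + (0 : ℝ) • (p j - p i))) :=
        tendsto_const_nhds.add (tendsto_id.smul_const _)
      rwa [zero_smul, add_zero] at h1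
    have hev := hcont.eventually (hVOL d hd hd0 p g hg hD hpos i)
    have h3 : ∀ᶠ t : ℝ in 𝓝[>] 0, (volume.real (convexHull ℝ (Set.range
        (Function.update p i (p i + t • (p j - p i))))) =
        cv d * Real.sqrt (gram p).det * (SS (d := d) g + dV p g i (p i + t • (p j - p i) - p i))) ∧
        t < 1 ∧ 0 < t :=
      (hev.filter_mono nhdsWithin_le_nhds).and
        (((gt_mem_nhds one_pos).filter_mono nhdsWithin_le_nhds).and self_mem_nhdsWithin)
    obtain ⟨t, k1, k2, k3⟩ := h3.exists
    set q : EE d := p i + t • (p j - p i) with hq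
    have hqP : q ∈ convexHull ℝ (Set.range p) := by
      have e : q = (1 - t) • p i + t • p j := by
        rw [hq, smul_sub, sub_smul, one_smul]; abel
      rw [e]
      exact convex_convexHull ℝ _ (subset_convexHull ℝ _ (Set.mem_range_self i))
        (subset_convexHull ℝ _ (Set.mem_range_self j)) (by linarith) k3.le (by ring)
    have hsub : convexHull ℝ (Set.range (Function.update p i q)) ⊆ convexHull ℝ (Set.range p) := by
      refine convexHull_min ?_ (convex_convexHull ℝ _)
      rintro _ ⟨k, rfl⟩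
      by_cases hk : k = i
      · subst hk
        rw [Function.update_self]
        exact hqP
      · rw [Function.update_of_ne hk]
        exact subset_convexHull ℝ _ ⟨k, rfl⟩
    have hnot : p i ∉ convexHull ℝ (Set.range (Function.update p i q)) := by
      intro hmem
      have hconv : Convex ℝ {x : EE d | (inner ℝ (p i) x : ℝ) < 1} := by
        have := (convex_halfSpace_lt (f := fun x : EE d => (inner ℝ (p i) x : ℝ))
          ⟨fun x y => inner_add_right _ _ _, fun c x => by
            rw [inner_smul_right]; rfl⟩ (1 : ℝ))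
        exact this
      have hss : Set.range (Function.update p i q) ⊆ {x : EE d | (inner ℝ (p i) x : ℝ) < 1} := by
        rintro _ ⟨k, rfl⟩
        by_cases hk : k = i
        · subst hk
          rw [Function.update_self]
          show (inner ℝ (p k) q : ℝ) < 1
          rw [hq, inner_add_right, inner_smul_right, inner_sub_right,
            real_inner_self_eq_norm_sq, hn k]
          nlinarith
        · rw [Function.update_of_ne hk]
          exact inner_lt_one (hn i) (hn k) (fun h => hk (hinj h).symm)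
      have := convexHull_min hss hconv hmem
      have h9 : (inner ℝ (p i) (p i) : ℝ) < 1 := this
      rw [real_inner_self_eq_norm_sq, hn i] at h9
      norm_num at h9
    have hlt := vol_lt (convex_convexHull ℝ _) hPc ((Set.finite_range _).isCompact_convexHull ℝ)
      hsub hint (subset_convexHull ℝ _ ⟨i, rfl⟩) hnot
    rw [k1, hvol, ← hK] at hlt
    have h4 := lt_of_mul_lt_mul_left hlt hK0
    have h5 : dV p g i (q - p i) = t * (a * (inner ℝ (p i) (p j) - 1)) := by
      rw [dV_eq, h2 i, ← ha, hq, add_sub_cancel_left, inner_smul_left, inner_smul_right,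
        inner_sub_right, real_inner_self_eq_norm_sq, hn i]
      simp
      ring
    rw [h5] at h4
    have h6 : t * (a * (inner ℝ (p i) (p j) - 1)) < 0 := by linarith
    have h7 : a * (inner ℝ (p i) (p j) - 1) < 0 := by
      by_contra hcon
      push Not at hcon
      have := mul_nonneg k3.le hcon
      linarith
    by_contra hcon
    push Not at hcon
    have : 0 ≤ a * (inner ℝ (p i) (p j) - 1) := mul_nonneg_of_nonpos_of_nonpos hcon (by linarith)
    linarith
  · rw [dV_eq]
    conv_lhs => rw [h2 i]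
    rw [inner_smul_left]
    rfl

/-- the points of a configuration on the sphere are the extreme points of its hull -/
lemma extreme_eq {n : ℕ} {p : Fin n → EE d} (hn : ∀ i, ‖p i‖ = 1) :
    (convexHull ℝ (Set.range p)).extremePoints ℝ = Set.range p := by
  apply Set.Subset.antisymm extremePoints_convexHull_subset
  rintro _ ⟨i, rfl⟩
  have hball : convexHull ℝ (Set.range p) ⊆ Metric.closedBall (0 : EE d) 1 := by
    refine convexHull_min ?_ (convex_closedBall _ _)
    rintro _ ⟨k, rfl⟩
    rw [mem_closedBall_zero_iff, hn]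
  refine mem_extremePoints.2 ⟨subset_convexHull ℝ _ ⟨i, rfl⟩, ?_⟩
  intro x hx y hy hxy
  obtain ⟨a, b, ha, hb, hab, he⟩ := hxy
  have hsc := strictConvex_closedBall ℝ (0 : EE d) 1
  have hnot : a • x + b • y ∉ interior (Metric.closedBall (0 : EE d) 1) := by
    rw [he, interior_closedBall _ (one_ne_zero), mem_ball_zero_iff, hn]
    exact lt_irrefl _
  have hxy := hsc.eq (hball hx) (hball hy) ha hb hab hnot
  subst hxy
  rw [← add_smul, hab, one_smul] at he
  exact ⟨he, he⟩

lemma range_update {n : ℕ} {p : Fin n → EE d} (hinj : Function.Injective p) (i : Fin n)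
    (q : EE d) : (Set.range p \ {p i}) ∪ {q} = Set.range (Function.update p i q) := by
  ext x
  simp only [Set.mem_union, Set.mem_sdiff, Set.mem_range, Set.mem_singleton_iff]
  constructor
  · rintro (⟨⟨k, rfl⟩, hk⟩ | rfl)
    · refine ⟨k, Function.update_of_ne (fun h => hk (by rw [h])) _ _⟩
    · exact ⟨i, Function.update_self _ _ _⟩
  · rintro ⟨k, rfl⟩
    by_cases hk : k = i
    · subst hk
      right
      exact Function.update_self _ _ _
    · left
      rw [Function.update_of_ne hk]
      exact ⟨⟨k, rfl⟩, fun h => hk (hinj h)⟩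

end Pool.Agent.K3h5.PZ
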