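import Pool.Agent.K3h5.PZ.FO

/-! Assembly: Property Z forces the extremal volume. -/

set_option autoImplicit false

namespace Pool.Agent.K3h5.PZ

open Pool.Agent.K3h40.Cyc Finset Matrix MeasureTheory Filter Topology

variable {d : ℕ}

/-- steps of the regular dual -/
lemma reg_step (hd : Even d) (k : ZMod (d + 3)) :
    (reg 1 (k + 2) : ℂ) - reg 1 k = reg 1 (k + 1) * (-(2 * Complex.I * (sn d : ℂ))) := by
  have e0 : ch (-(hh d : ZMod (d + 3))) - ch (hh d : ZMod (d + 3)) = 2 * Complex.I * (sn d : ℂ) := by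
    rw [ch_neg]
    apply Complex.ext
    · simp [Complex.star_def]
    · rw [Complex.sub_im, Complex.star_def, Complex.conj_im, ch_hh_im hd]
      simp
      ring
  have e1 : (reg 1 k : ℂ) = reg 1 (k + 1) * ch (-(hh d : ZMod (d + 3))) := by
    unfold reg
    rw [mul_assoc, ← ch_add]
    congr 2
    ring
  have e2 : (reg 1 (k + 2) : ℂ) = reg 1 (k + 1) * ch (hh d : ZMod (d + 3)) := by
    unfold reg
    rw [mul_assoc, ← ch_add]
    congr 2
    ring
  rw [e1, e2, ← e0]
  ring

lemma reg_norm (k : ZMod (d + 3)) : ‖(reg 1 k : ℂ)‖ = 1 := by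
  unfold reg
  rw [norm_mul, norm_ch]
  simp

/-- the Wirtinger inequality at constant weights bounds `T` -/
lemma T_bound (hd : Even d) {lam : ZMod (d + 3) → ℝ} {T L : ℝ} (hL : 0 < L) (hT : 0 < T)
    (hlam : ∀ j, lam j = L) (hW : Wirt lam T) : T * L ≤ 2 * sn d := by
  have hs := sn_pos (d := d)
  have hN : (0 : ℝ) < (d : ℝ) + 3 := by positivity
  have h1 := hW (fun j => (reg 1 j : ℂ).re)
  have h2 := hW (fun j => (reg 1 j : ℂ).im)
  simp_rw [hlam] at h1 h2
  rw [← Finset.mul_sum, ← Finset.mul_sum, ← Complex.re_sum, sum_reg] at h1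
  rw [← Finset.mul_sum, ← Finset.mul_sum, ← Complex.im_sum, sum_reg] at h2
  simp only [Complex.zero_re, Complex.zero_im, mul_zero, ne_eq, OfNat.ofNat_ne_zero,
    not_false_eq_true, zero_pow, zero_div, sub_zero] at h1 h2
  rw [← Finset.sum_div] at h1 h2
  have hsum : ∑ j : ZMod (d + 3), (reg 1 j : ℂ).re ^ 2 + ∑ j : ZMod (d + 3), (reg 1 j : ℂ).im ^ 2
      = (d : ℝ) + 3 := by
    rw [← Finset.sum_add_distrib]
    have : ∀ j : ZMod (d + 3), (reg 1 j : ℂ).re ^ 2 + (reg 1 j : ℂ).im ^ 2 = 1 := by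
      intro j
      have h := reg_norm j
      have h' : ‖(reg 1 j : ℂ)‖ ^ 2 = 1 := by rw [h]; norm_num
      rw [Complex.sq_norm, Complex.normSq_apply] at h'
      linarith
    simp_rw [this]
    simp [ZMod.card]
  have hstep : ∑ j : ZMod (d + 3), ((reg 1 (j + 2) : ℂ).re - (reg 1 j : ℂ).re) ^ 2 +
      ∑ j : ZMod (d + 3), ((reg 1 (j + 2) : ℂ).im - (reg 1 j : ℂ).im) ^ 2
      = ((d : ℝ) + 3) * (4 * sn d ^ 2) := by
    rw [← Finset.sum_add_distrib]
    have : ∀ j : ZMod (d + 3), ((reg 1 (j + 2) : ℂ).re - (reg 1 j : ℂ).re) ^ 2 +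
        ((reg 1 (j + 2) : ℂ).im - (reg 1 j : ℂ).im) ^ 2 = 4 * sn d ^ 2 := by
      intro j
      have h := reg_step hd j
      have h' : ‖(reg 1 (j + 2) : ℂ) - reg 1 j‖ ^ 2 = 4 * sn d ^ 2 := by
        rw [h, norm_mul, reg_norm, norm_neg, norm_mul, norm_mul, Complex.norm_I,
          Complex.norm_real, Real.norm_eq_abs, abs_of_pos hs]
        simp
        ring
      rw [Complex.sq_norm, Complex.normSq_apply, Complex.sub_re, Complex.sub_im] at h'
      linarith
    simp_rw [this]
    simp [ZMod.card]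
  have h3 : T ^ 2 * (L * ((d : ℝ) + 3)) ≤ ((d : ℝ) + 3) * (4 * sn d ^ 2) / L := by
    rw [← hstep]
    calc T ^ 2 * (L * ((d : ℝ) + 3))
        = T ^ 2 * (L * ∑ j : ZMod (d + 3), (reg 1 j : ℂ).re ^ 2) +
          T ^ 2 * (L * ∑ j : ZMod (d + 3), (reg 1 j : ℂ).im ^ 2) := by rw [← hsum]; ring
      _ ≤ _ := by rw [add_div]; exact add_le_add h1 h2
  rw [le_div_iff₀ hL] at h3
  have h4 : (T * L) ^ 2 ≤ (2 * sn d) ^ 2 := by
    have : ((d : ℝ) + 3) * ((T * L) ^ 2) ≤ ((d : ℝ) + 3) * ((2 * sn d) ^ 2) := by nlinarith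
    exact le_of_mul_le_mul_left this hN
  exact (pow_le_pow_iff_left₀ (by positivity) (by positivity) two_ne_zero).1 h4

theorem main_pz (hVOL : S_VOL) (hLIN : S_LIN) (hSTR : S_STR) (hPOI : S_POI) (hCORE : S_CORE)
    (hd : Even d) (hd0 : 0 < d) (p : Fin (d + 3) → EE d) (hn : ∀ i, ‖p i‖ = 1)
    (hinj : Function.Injective p)
    (hsp : affineSpan ℝ (Set.range p) = ⊤) (hc : IsCyc p)
    (hZ : ∀ i, ∀ᶠ q in 𝓝 (p i), ‖q‖ = 1 →
      volume.real (convexHull ℝ ((Set.range p \ {p i}) ∪ {q})) ≤
        volume.real (convexHull ℝ (Set.range p))) :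
    volume.real (convexHull ℝ (Set.range p)) = volume.real (convexHull ℝ (Set.range (cyc d))) := by
  have hd' : (0 : ℝ) < d := by exact_mod_cast hd0
  obtain ⟨σ, hA⟩ := exists_sorted hd hc
  set q : Fin (d + 3) → EE d := fun i => p (σ i) with hq
  have hrange : Set.range q = Set.range p := by
    rw [hq]
    exact σ.surjective.range_comp p
  have hqn : ∀ i, ‖q i‖ = 1 := fun i => hn (σ i)
  have hqinj : Function.Injective q := hinj.comp σ.injective
  have hqsp : affineSpan ℝ (Set.range q) = ⊤ := by rw [hrange, hsp]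
  obtain ⟨g, hg, hpos⟩ := exists_pos hd hA
  have hD := gram_ne_of_span hqsp
  have hqZ : ∀ i, ∀ᶠ x in 𝓝 (q i), ‖x‖ = 1 →
      volume.real (convexHull ℝ (Set.range (Function.update q i x))) ≤
        volume.real (convexHull ℝ (Set.range q)) := by
    intro i
    have h1 := hZ (σ i)
    filter_upwards [h1] with x hx hx1
    rw [← range_update hqinj, hrange]
    exact hx hx1
  obtain ⟨hSS, lam, hlam, hdV⟩ := fo hVOL hd hd0 hqn hqinj hqsp hg hD hpos hqZ
  obtain ⟨e1, e2⟩ := hLIN d hd hd0 q g lam hg hD hdV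
  obtain ⟨G, T, c, s, r, t, hT, hc0, hs0, ht0, hTst, hrel, hRec, hFr, hlamG, hcsum, hPosG⟩ :=
    hSTR d hd hd0 q g lam hqn hg hD hpos hSS hlam e1 e2
  have hW : Wirt (d := d) lam T := hPOI d hd hd0 G lam T hT hlam hRec hFr.sum hPosG
  have hconst := hCORE d hd hd0 G lam T c hT hc0 hlam hRec hFr hlamG hcsum hW
  set L : ℝ := lam 0 with hLdef
  have hL : ∀ j, lam j = L := fun j => hconst j 0
  have hL0 : 0 < L := hlam 0
  -- the Gram matrix
  have hG0 : ∀ k : Fin d, gram q 0 k.succ = 0 := by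
    intro k
    have h := e1 0 k
    rw [if_neg (Fin.succ_ne_zero k).symm] at h
    unfold Pool.Agent.K3h40.Cyc.gram
    rw [Matrix.mul_apply]
    simp only [Matrix.transpose_apply]
    have h2 : ∑ i, aug q i 0 * (lam i * q i k) = L * ∑ i, aug q i 0 * aug q i k.succ := by
      rw [Finset.mul_sum]
      refine Finset.sum_congr rfl fun i _ => ?_
      rw [hL, aug_succ]; ring
    rw [h2] at h
    exact (mul_eq_zero.1 h).resolve_left hL0.ne'
  have hGs : ∀ l k : Fin d, gram q l.succ k.succ = if l = k then SS (d := d) g / L else 0 := by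
    intro l k
    have h := e1 l.succ k
    unfold Pool.Agent.K3h40.Cyc.gram
    rw [Matrix.mul_apply]
    simp only [Matrix.transpose_apply]
    have h2 : ∑ i, aug q i l.succ * (lam i * q i k) = L * ∑ i, aug q i l.succ * aug q i k.succ := by
      rw [Finset.mul_sum]
      refine Finset.sum_congr rfl fun i _ => ?_
      rw [hL, aug_succ, aug_succ]; ring
    rw [h2] at h
    by_cases hlk : l = k
    · subst hlk
      rw [if_pos rfl] at h
      rw [if_pos rfl, ← h]
      field_simp
    · rw [if_neg (fun h' => hlk (Fin.succ_injective _ h'))] at h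
      rw [if_neg hlk]
      exact (mul_eq_zero.1 h).resolve_left hL0.ne'
  have htr := gram_trace q hqn
  have hSL : SS (d := d) g / L = ((d : ℝ) + 3) / d := by
    simp_rw [hGs] at htr
    simp only [if_true, Finset.sum_const, Finset.card_univ, Fintype.card_fin, nsmul_eq_mul] at htr
    rw [← htr]
    field_simp
  have hGram : gram q = diagonal (tgt d) := by
    ext i j
    refine Fin.cases ?_ (fun l => ?_) i
    · refine Fin.cases ?_ (fun k => ?_) j
      · rw [gram_zero_zero, Matrix.diagonal_apply_eq]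
        simp [tgt]
      · rw [hG0, Matrix.diagonal_apply_ne _ (Fin.succ_ne_zero k).symm]
    · refine Fin.cases ?_ (fun k => ?_) j
      · have hsymm : gram q l.succ 0 = gram q 0 l.succ := by
          unfold Pool.Agent.K3h40.Cyc.gram
          rw [Matrix.mul_apply, Matrix.mul_apply]
          refine Finset.sum_congr rfl fun i _ => ?_
          rw [Matrix.transpose_apply, Matrix.transpose_apply]; ring
        rw [hsymm, hG0, Matrix.diagonal_apply_ne _ (Fin.succ_ne_zero l)]
      · rw [hGs]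
        by_cases hlk : l = k
        · subst hlk
          rw [if_pos rfl, Matrix.diagonal_apply_eq, hSL]
          simp [tgt]
        · rw [if_neg hlk, Matrix.diagonal_apply_ne _ (fun h' => hlk (Fin.succ_injective _ h'))]
  have hdet : (gram q).det = dstar d := by
    rw [hGram, Matrix.det_diagonal]
    rfl
  -- the frame
  have hGre : ∀ j : Fin (d + 3), L * (G j).re = r * (g j).re + t * (g j).im := by
    intro j
    have h := congrArg Complex.re (hrel j)
    rw [hL] at h
    simp only [Complex.mul_re, Complex.ofReal_re, Complex.ofReal_im, zero_mul, sub_zero,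
      Complex.neg_re, Complex.neg_im, Complex.I_re, Complex.I_im, neg_zero, neg_mul, one_mul,
      sub_neg_eq_add, zero_add] at h
    linarith
  have hGim : ∀ j : Fin (d + 3), L * (G j).im = -(s * (g j).re) := by
    intro j
    have h := congrArg Complex.im (hrel j)
    rw [hL] at h
    simp only [Complex.mul_im, Complex.ofReal_re, Complex.ofReal_im, zero_mul, add_zero,
      Complex.neg_re, Complex.neg_im, Complex.I_re, Complex.I_im, neg_zero, neg_mul, one_mul,
      zero_add] at h
    linarith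
  have hrr : ∑ j : Fin (d + 3), (g j).re * (g j).re = 1 := hg.re_re
  have hii : ∑ j : Fin (d + 3), (g j).im * (g j).im = 1 := hg.im_im
  have hri : ∑ j : Fin (d + 3), (g j).re * (g j).im = 0 := hg.re_im
  have f1 : ∑ j : Fin (d + 3), L * ((G j).re * (G j).re) = 1 := by
    have := hFr.re_re
    simp_rw [hL] at this
    exact this
  have f2 : ∑ j : Fin (d + 3), L * ((G j).im * (G j).im) = 1 := by
    have := hFr.im_im
    simp_rw [hL] at this
    exact this
  have f3 : ∑ j : Fin (d + 3), L * ((G j).re * (G j).im) = 0 := by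
    have := hFr.re_im
    simp_rw [hL] at this
    exact this
  have g2 : s ^ 2 = L := by
    have h : L * ∑ j : Fin (d + 3), L * ((G j).im * (G j).im) =
        s ^ 2 * ∑ j : Fin (d + 3), (g j).re * (g j).re := by
      rw [Finset.mul_sum, Finset.mul_sum]
      refine Finset.sum_congr rfl fun j _ => ?_
      calc L * (L * ((G j).im * (G j).im)) = (L * (G j).im) * (L * (G j).im) := by ring
        _ = _ := by rw [hGim]; ring
    rw [f2, hrr] at h
    linarith
  have g3 : r = 0 := by
    have h : L * ∑ j : Fin (d + 3), L * ((G j).re * (G j).im) =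
        -(s * r) * ∑ j : Fin (d + 3), (g j).re * (g j).re +
        -(s * t) * ∑ j : Fin (d + 3), (g j).re * (g j).im := by
      rw [Finset.mul_sum, Finset.mul_sum, Finset.mul_sum, ← Finset.sum_add_distrib]
      refine Finset.sum_congr rfl fun j _ => ?_
      calc L * (L * ((G j).re * (G j).im)) = (L * (G j).re) * (L * (G j).im) := by ring
        _ = _ := by rw [hGim, hGre]; ring
    rw [f3, hrr, hri] at h
    have : s * r = 0 := by linarith
    exact (mul_eq_zero.1 this).resolve_left hs0.ne'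
  have g1 : t ^ 2 = L := by
    have h : L * ∑ j : Fin (d + 3), L * ((G j).re * (G j).re) =
        t ^ 2 * ∑ j : Fin (d + 3), (g j).im * (g j).im := by
      rw [Finset.mul_sum, Finset.mul_sum]
      refine Finset.sum_congr rfl fun j _ => ?_
      calc L * (L * ((G j).re * (G j).re)) = (L * (G j).re) * (L * (G j).re) := by ring
        _ = _ := by rw [hGre, g3]; ring
    rw [f1, hii] at h
    linarith
  have hst : s * t = L := by
    have h1 : s ^ 2 = t ^ 2 := by rw [g1, g2]
    have h2 : s = t := (pow_left_inj₀ hs0.le ht0.le two_ne_zero).1 h1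
    rw [h2, ← pow_two, g1]
  rw [hst] at hTst
  have hTL : T * L ≤ 2 * sn d := T_bound hd hL0 hT hL hW
  have hsn := sn_pos (d := d)
  have hSSge : 1 ≤ (2 * sn d) * SS (d := d) g := by
    calc (1 : ℝ) = T * L * SS (d := d) g := by rw [← hTst]; ring
      _ ≤ _ := mul_le_mul_of_nonneg_right hTL hSS.le
  obtain ⟨hS1, -⟩ := SS_le hd (fun i : ZMod (d + 3) => g i) hg.sum
  have hg2' : ∑ j : ZMod (d + 3), ‖g j‖ ^ 2 = 2 := sum_norm_gale hg
  rw [hg2'] at hS1
  have hSSle : 4 * sn d * SS (d := d) g ≤ 2 := hS1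
  have hSSeq : SS (d := d) g = 1 / (2 * sn d) := by
    rw [eq_div_iff (by positivity)]
    linarith
  have hvol := vol_eq hd hd0 hg hD hpos
  rw [hrange] at hvol
  rw [hvol, hdet, hSSeq, vol_cyc hd hd0]

end Pool.Agent.K3h5.PZ
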