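import Pool.Agent.K3h40.Cyc.Final

/-!
Statements of the bricks for MP_7322d1_co, Q2: a cyclic polytope with `d+3` vertices on the unit
sphere which has Property Z is congruent to `C_d(d+3)`.
-/

set_option autoImplicit false

namespace Pool.Agent.K3h5.PZ

open Pool.Agent.K3h40.Cyc Finset Matrix MeasureTheory Filter Topology

variable {d : ℕ}

/-- `(Γ⁻¹ A_a)_k`, `A_a = (1, p a)`, `Γ = gram p` -/
noncomputable def Bm (p : Fin (d + 3) → EE d) (a : Fin (d + 3)) (k : Fin (d + 1)) : ℝ :=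
  ∑ l, (gram p)⁻¹ k l * aug p a l

/-- the linear form `β_a(δ) = (0, δ) Γ⁻¹ A_a` -/
noncomputable def bet (p : Fin (d + 3) → EE d) (a : Fin (d + 3)) (δ : EE d) : ℝ :=
  ∑ k : Fin d, Bm p a k.succ * δ k

/-- first variation of the volume (up to a constant) when the vertex `i` moves by `δ` -/
noncomputable def dV (p : Fin (d + 3) → EE d) (g : Fin (d + 3) → ℂ) (i : Fin (d + 3))
    (δ : EE d) : ℝ :=
  bet p i δ * SS (d := d) g + ∑ a : Fin (d + 3), bet p a δ * wdg (g i) (Gf (d := d) g a)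

/-- brick VOL: the volume is affine in the vertex `i`, near `p i` -/
def S_VOL : Prop :=
  ∀ (d : ℕ), Even d → 0 < d → ∀ (p : Fin (d + 3) → EE d) (g : Fin (d + 3) → ℂ),
    Gale p g → (gram p).det ≠ 0 → Pos g → ∀ i : Fin (d + 3), ∀ᶠ q in 𝓝 (p i),
      volume.real (convexHull ℝ (Set.range (Function.update p i q))) =
        cv d * Real.sqrt (gram p).det * (SS (d := d) g + dV p g i (q - p i))

/-- brick LIN: the critical equations -/
def S_LIN : Prop :=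
  ∀ (d : ℕ), Even d → 0 < d → ∀ (p : Fin (d + 3) → EE d) (g : Fin (d + 3) → ℂ)
    (lam : Fin (d + 3) → ℝ), Gale p g → (gram p).det ≠ 0 →
    (∀ i δ, dV p g i δ = lam i * inner ℝ (p i) δ) →
    (∀ (l : Fin (d + 1)) (k : Fin d), ∑ i, aug p i l * (lam i * p i k) =
      if l = k.succ then SS (d := d) g else 0) ∧
    (∀ k : Fin d, ∑ j : Fin (d + 3), ((lam j * p j k : ℝ) : ℂ) * Gf (d := d) g j = 0)

/-- the recurrence `G (k+2) - G k = -i T λ(k+1) G (k+1)` -/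
def Rec (G : ZMod (d + 3) → ℂ) (lam : ZMod (d + 3) → ℝ) (T : ℝ) : Prop :=
  ∀ k, G (k + 2) - G k = -(Complex.I * T * lam (k + 1)) * G (k + 1)

/-- orthonormality for the weights `lam` -/
structure Frame (G : ZMod (d + 3) → ℂ) (lam : ZMod (d + 3) → ℝ) : Prop where
  sum : ∑ j, (lam j : ℂ) * G j = 0
  re_re : ∑ j, lam j * ((G j).re * (G j).re) = 1
  im_im : ∑ j, lam j * ((G j).im * (G j).im) = 1
  re_im : ∑ j, lam j * ((G j).re * (G j).im) = 0

/-- brick STR: from the critical equations to the recurrence -/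
def S_STR : Prop :=
  ∀ (d : ℕ), Even d → 0 < d → ∀ (p : Fin (d + 3) → EE d) (g : Fin (d + 3) → ℂ)
    (lam : Fin (d + 3) → ℝ), (∀ i, ‖p i‖ = 1) → Gale p g → (gram p).det ≠ 0 → Pos g →
    0 < SS (d := d) g → (∀ i, 0 < lam i) →
    (∀ (l : Fin (d + 1)) (k : Fin d), ∑ i, aug p i l * (lam i * p i k) =
      if l = k.succ then SS (d := d) g else 0) →
    (∀ k : Fin d, ∑ j : Fin (d + 3), ((lam j * p j k : ℝ) : ℂ) * Gf (d := d) g j = 0) →
    ∃ (G : ZMod (d + 3) → ℂ) (T c s r t : ℝ), 0 < T ∧ 0 < c ∧ 0 < s ∧ 0 < t ∧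
      T * (s * t * SS (d := d) g) = 1 ∧
      (∀ j : Fin (d + 3), (lam j : ℂ) * G j =
        -Complex.I * ⟨s * (g j).re, r * (g j).re + t * (g j).im⟩) ∧
      Rec G lam T ∧ Frame G lam ∧ (∀ j : Fin (d + 3), lam j * (c + ‖G j‖ ^ 2) = 1) ∧
      c * ∑ j, lam j = (d : ℝ) + 1 ∧ Pos (d := d) G

/-- the discrete Wirtinger inequality -/
def Wirt (lam : ZMod (d + 3) → ℝ) (T : ℝ) : Prop :=
  ∀ a : ZMod (d + 3) → ℝ, T ^ 2 * (∑ j, lam j * a j ^ 2 - (∑ j, lam j * a j) ^ 2 / ∑ j, lam j) ≤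
    ∑ k, (a (k + 2) - a k) ^ 2 / lam (k + 1)

/-- brick POI -/
def S_POI : Prop :=
  ∀ (d : ℕ), Even d → 0 < d → ∀ (G : ZMod (d + 3) → ℂ) (lam : ZMod (d + 3) → ℝ) (T : ℝ),
    0 < T → (∀ j, 0 < lam j) → Rec G lam T → ∑ j, (lam j : ℂ) * G j = 0 → Pos (d := d) G →
    Wirt lam T

/-- brick CORE -/
def S_CORE : Prop :=
  ∀ (d : ℕ), Even d → 0 < d → ∀ (G : ZMod (d + 3) → ℂ) (lam : ZMod (d + 3) → ℝ) (T c : ℝ),
    0 < T → 0 < c → (∀ j, 0 < lam j) → Rec G lam T → Frame G lam →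
    (∀ j, lam j * (c + ‖G j‖ ^ 2) = 1) → c * ∑ j, lam j = (d : ℝ) + 1 → Wirt lam T →
    ∀ j k, lam j = lam k

end Pool.Agent.K3h5.PZ
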